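import Mathlib

/-!
A group with a central involution `w` containing all commutators, which is not generated by
`μ` commutative subsets, needs more than `μ` edge orbits.
-/

namespace Pool.Agent.H.MP_0f290c_co

open Cardinal

theorem graph_part {G : Type} [Group G] (w : G) (hw1 : w ≠ 1) (hww : w * w = 1)
    (hc : ∀ g, w * g = g * w) (hconj : ∀ g x : G, x⁻¹ * g * x = g ∨ x⁻¹ * g * x = g * w)
    (μ : Cardinal.{0}) (hμ : ℵ₀ ≤ μ)
    (HG : ∀ (I : Type) (U : I → Set G), #I ≤ μ → (∀ i, ∀ a ∈ U i, ∀ b ∈ U i, a * b = b * a) →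
      Subgroup.closure (⋃ i, U i) ≠ ⊤)
    {V : Type} (X : SimpleGraph V) (e : G ≃* (X ≃g X)) (S : Set (Sym2 V))
    (hS : ∀ e ∈ X.edgeSet, ∃ s ∈ S, ∃ φ : X ≃g X, Sym2.map (⇑φ) s = e) : μ < #S := by
  classical
  by_contra hle
  rw [not_lt] at hle
  have emul : ∀ g h u, e (g * h) u = e g (e h u) := fun g h u => by rw [map_mul]; rfl
  have eone : ∀ u, e 1 u = u := fun u => by rw [map_one]; rfl
  have einv : ∀ g u, e g⁻¹ (e g u) = u := fun g u => by rw [← emul, inv_mul_cancel, eone]
  have einv' : ∀ g u, e g (e g⁻¹ u) = u := fun g u => by rw [← emul, mul_inv_cancel, eone]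
  have eww : ∀ u, e w (e w u) = u := fun u => by rw [← emul, hww, eone]
  have ewc : ∀ g u, e w (e g u) = e g (e w u) := fun g u => by rw [← emul, hc, emul]
  have stinv : ∀ g u, e w u ≠ u → e w (e g u) ≠ e g u := fun g u h h' => by
    rw [ewc] at h'; exact h ((e g).injective h')
  obtain ⟨u0, hu0⟩ : ∃ u, e w u ≠ u := by
    by_contra h
    push Not at h
    apply hw1
    apply e.injective
    rw [map_one]
    exact RelIso.ext h
  let J := Option (S × Bool)
  let r : J → V := fun j => match j with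
    | none => u0
    | some (s, b) => if b then (Quot.out s.1).1 else (Quot.out s.1).2
  have hJ : #J ≤ μ := by
    show #(Option (S × Bool)) ≤ μ
    rw [mk_option, mk_prod, lift_id, lift_id, mk_bool]
    refine add_le_of_le hμ (mul_le_of_le hμ hle ?_) (le_trans one_le_aleph0 hμ)
    exact le_trans (nat_lt_aleph0 2).le hμ
  have ha : ∀ j j' : J, ∃ a : G, (∃ g : G, e g (r j) = r j') → e a (r j) = r j' := by
    intro j j'
    by_cases h : ∃ g : G, e g (r j) = r j'
    · obtain ⟨g, hg⟩ := h; exact ⟨g, fun _ => hg⟩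
    · exact ⟨1, fun h' => absurd h' h⟩
  choose a ha using ha
  let U : G → (J ⊕ (J × J) ⊕ Bool) → Set G := fun x i => match i with
    | Sum.inl j => {g | e w (r j) ≠ r j ∧ e g (r j) = r j}
    | Sum.inr (Sum.inl p) => {a p.1 p.2}
    | Sum.inr (Sum.inr b) => {if b then w else x}
  have hI : #(J ⊕ (J × J) ⊕ Bool) ≤ μ := by
    rw [mk_sum, mk_sum, mk_prod, mk_bool]
    simp only [lift_id]
    refine add_le_of_le hμ hJ (add_le_of_le hμ (mul_le_of_le hμ hJ hJ) ?_)
    exact le_trans (nat_lt_aleph0 2).le hμ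
  have hU : ∀ x, Subgroup.closure (⋃ i, U x i) ≠ ⊤ := by
    intro x
    apply HG _ _ hI
    rintro (j | p | b) g hg h hh
    · rcases hconj g h with h1 | h1
      · rw [mul_assoc, inv_mul_eq_iff_eq_mul] at h1; exact h1
      · exfalso
        rw [mul_assoc, inv_mul_eq_iff_eq_mul] at h1
        have := congrArg (fun t => e t (r j)) h1
        simp only [emul] at this
        rw [hh.2, hg.2, ← ewc, hg.2, ← ewc, hh.2] at this
        exact hg.1 this.symm
    · rw [Set.mem_singleton_iff.1 hg, Set.mem_singleton_iff.1 hh]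
    · rw [Set.mem_singleton_iff.1 hg, Set.mem_singleton_iff.1 hh]
  have mem : ∀ x i g, g ∈ U x i → g ∈ Subgroup.closure (⋃ i, U x i) := fun x i g h =>
    Subgroup.subset_closure (Set.mem_iUnion.2 ⟨i, h⟩)
  set L := Subgroup.closure (⋃ i, U 1 i) with hL
  have LL : ∀ x, L ≤ Subgroup.closure (⋃ i, U x i) := by
    intro x
    rw [hL, Subgroup.closure_le]
    intro g hg
    obtain ⟨i, hi⟩ := Set.mem_iUnion.1 hg
    rcases i with j | p | b
    · exact mem x (Sum.inl j) g hi
    · exact mem x (Sum.inr (Sum.inl p)) g hi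
    · cases b
      · have : g = 1 := hi
        rw [this]; exact Subgroup.one_mem _
      · exact mem x (Sum.inr (Sum.inr true)) g hi
  obtain ⟨x, hx⟩ : ∃ x, x ∉ L := by
    by_contra h
    push Not at h
    exact hU 1 (eq_top_iff.2 fun g _ => h g)
  obtain ⟨y, hy'⟩ : ∃ y, y ∉ Subgroup.closure (⋃ i, U x i) := by
    by_contra h
    push Not at h
    exact hU x (eq_top_iff.2 fun g _ => h g)
  have hy : y ∉ L := fun h => hy' (LL x h)
  have hxy : x * y ∉ L := fun h => hy' (by
    have h1 : x ∈ Subgroup.closure (⋃ i, U x i) := mem x (Sum.inr (Sum.inr false)) x rfl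
    have := Subgroup.mul_mem _ (Subgroup.inv_mem _ h1) (LL x h)
    rwa [inv_mul_cancel_left] at this)
  have wL : w ∈ L := mem 1 (Sum.inr (Sum.inr true)) w rfl
  have key : ∀ (j j' : J) (l k : G), l ∈ L → e w (r j) ≠ r j → e l (r j') = e k (r j) → k ∈ L := by
    intro j j' l k hl hst h
    have h1 : e (a j j') (r j) = r j' := ha j j' ⟨l⁻¹ * k, by rw [emul, ← h, einv]⟩
    have h2 : (l * a j j')⁻¹ * k ∈ L := mem 1 (Sum.inl j) _ ⟨hst, by
      rw [emul, ← h, ← h1, ← emul l, einv]⟩
    have h3 : l * a j j' ∈ L := L.mul_mem hl (mem 1 (Sum.inr (Sum.inl (j, j'))) _ rfl)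
    have := L.mul_mem h3 h2
    rwa [mul_inv_cancel_left] at this
  let Rl : V → V → Prop := fun p q => X.Adj p q ∧ e w q ≠ q
  have reachSt : ∀ p q, e w p ≠ p → Relation.ReflTransGen Rl p q → e w q ≠ q := by
    intro p q hp h
    induction h with
    | refl => exact hp
    | tail _ h _ => exact h.2
  have reachL : ∀ p q, e w p ≠ p → (∃ l ∈ L, ∃ j, p = e l (r j)) → Relation.ReflTransGen Rl p q →
      ∃ l ∈ L, ∃ j, q = e l (r j) := by
    intro p q hp h0 h
    induction h with
    | refl => exact h0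
    | @tail b c hb h ih =>
      obtain ⟨l, hl, j, hj⟩ := ih
      have hbs := reachSt p b hp hb
      obtain ⟨s, hs, φ, hφ⟩ := hS s(b, c) h.1
      obtain ⟨k, rfl⟩ := e.surjective φ
      have hs' : s = s((Quot.out s).1, (Quot.out s).2) := (Quot.out_eq s).symm
      rw [hs', Sym2.map_mk, Sym2.eq_iff] at hφ
      have st : ∀ j', e k (r j') = b → k ∈ L := fun j' hj' => by
        refine key j' j l k hl ?_ (by rw [← hj, hj'])
        have := stinv k⁻¹ b hbs
        rwa [← hj', einv] at this
      rcases hφ with ⟨h1, h2⟩ | ⟨h1, h2⟩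
      · exact ⟨k, st (some (⟨s, hs⟩, true)) h1, some (⟨s, hs⟩, false), h2.symm⟩
      · exact ⟨k, st (some (⟨s, hs⟩, false)) h2, some (⟨s, hs⟩, true), h1.symm⟩
  have reachW : ∀ p q, Relation.ReflTransGen Rl p q →
      Relation.ReflTransGen Rl (e w p) (e w q) := by
    intro p q h
    induction h with
    | refl => exact Relation.ReflTransGen.refl
    | tail _ h ih => exact ih.tail ⟨(e w).map_adj_iff.2 h.1, stinv w _ h.2⟩
  let D : V → Prop := fun u => Relation.ReflTransGen Rl u0 u ∨ Relation.ReflTransGen Rl (e w u0) u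
  have DW : ∀ u, D u → D (e w u) := by
    rintro u (h | h)
    · exact Or.inr (reachW _ _ h)
    · have := reachW _ _ h
      rw [eww] at this; exact Or.inl this
  have DL : ∀ z, z ∉ L → ¬ D (e z u0) := by
    intro z hz h
    have : ∃ l ∈ L, ∃ j, e z u0 = e l (r j) := by
      rcases h with h | h
      · exact reachL _ _ hu0 ⟨1, L.one_mem, none, (eone _).symm⟩ h
      · exact reachL _ _ (stinv w _ hu0) ⟨w, wL, none, rfl⟩ h
    obtain ⟨l, hl, j, hj⟩ := this
    exact hz (key none j l z hl hu0 hj.symm)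
  let f : V → V := fun u => if D u then e w u else u
  have finv : Function.Involutive f := by
    intro u
    by_cases h : D u
    · simp only [f, if_pos h, if_pos (DW u h), eww]
    · simp only [f, if_neg h]
  have half : ∀ u v, X.Adj u v → D u → ¬ D v → X.Adj (e w u) v := by
    intro u v h hu hv
    have : e w v = v := by
      by_contra h'
      exact hv (hu.imp (fun t => t.tail ⟨h, h'⟩) (fun t => t.tail ⟨h, h'⟩))
    rw [← this]; exact (e w).map_adj_iff.2 h
  have fadj : ∀ u v, X.Adj u v → X.Adj (f u) (f v) := by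
    intro u v h
    by_cases hu : D u <;> by_cases hv : D v
    · simp only [f, if_pos hu, if_pos hv]; exact (e w).map_adj_iff.2 h
    · simp only [f, if_pos hu, if_neg hv]; exact half u v h hu hv
    · simp only [f, if_neg hu, if_pos hv]; exact (half v u h.symm hv hu).symm
    · simp only [f, if_neg hu, if_neg hv]; exact h
  let σ : X ≃g X :=
    { toEquiv := finv.toPerm
      map_rel_iff' := fun {u v} => ⟨fun h => by
        have := fadj _ _ h
        change X.Adj (f (f u)) (f (f v)) at this
        rwa [finv u, finv v] at this, fadj u v⟩ }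
  obtain ⟨g, hg⟩ := e.surjective σ
  have gu : ∀ u, e g u = f u := fun u => by rw [hg]; rfl
  have g0 : e g u0 = e w u0 := by
    rw [gu]; exact if_pos (Or.inl Relation.ReflTransGen.refl)
  have cj : ∀ z, z ∉ L → z⁻¹ * g * z = g * w := by
    intro z hz
    rcases hconj g z with h | h
    · exfalso
      have h1 : e g (e z u0) = e z u0 := by rw [gu]; exact if_neg (DL z hz)
      have := congrArg (fun t => e t u0) h
      simp only [emul] at this
      rw [h1, einv, g0] at this
      exact hu0 this.symm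
    · exact h
  have h1 := cj _ hxy
  have h2 : (x * y)⁻¹ * g * (x * y) = y⁻¹ * (x⁻¹ * g * x) * y := by group
  rw [h2, cj x hx] at h1
  have h3 : y⁻¹ * (g * w) * y = (y⁻¹ * g * y) * w := by
    rw [mul_assoc y⁻¹, mul_assoc g, hc y]; group
  rw [h3, cj y hy, mul_assoc, hww, mul_one] at h1
  exact hw1 (by simpa using h1)

end Pool.Agent.H.MP_0f290c_co
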