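import Pool.Agent.H.MP_0f290c_co.A

/-!
The Clifford group on a well-ordered set of regular cardinality, and a pressing-down argument.
-/

namespace Pool.Agent.H.MP_0f290c_co

open Cardinal

variable {A : Type} [LinearOrder A]

/-- the bilinear form `∑_{x<y} u x v y` -/
noncomputable def gam (A : Type) [LinearOrder A] :
    (A →₀ ZMod 2) →ₗ[ZMod 2] (A →₀ ZMod 2) →ₗ[ZMod 2] ZMod 2 :=
  Finsupp.linearCombination (ZMod 2)
    (fun x => Finsupp.linearCombination (ZMod 2) (fun y => if x < y then (1 : ZMod 2) else 0))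

/-- total sum -/
noncomputable def eps (A : Type) : (A →₀ ZMod 2) →ₗ[ZMod 2] ZMod 2 :=
  Finsupp.linearCombination (ZMod 2) (fun _ => (1 : ZMod 2))

theorem gam_apply (u v : A →₀ ZMod 2) : gam A u v =
    ∑ x ∈ u.support, ∑ y ∈ v.support, u x * (v y * if x < y then 1 else 0) := by
  unfold gam
  rw [Finsupp.linearCombination_apply, Finsupp.sum, LinearMap.sum_apply]
  refine Finset.sum_congr rfl fun x _ => ?_
  rw [LinearMap.smul_apply, Finsupp.linearCombination_apply, Finsupp.sum, smul_eq_mul,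
    Finset.mul_sum]
  rfl

omit [LinearOrder A] in
theorem eps_apply (u : A →₀ ZMod 2) : eps A u = ∑ x ∈ u.support, u x := by
  unfold eps
  rw [Finsupp.linearCombination_apply, Finsupp.sum]
  simp

theorem gam_lt {u v : A →₀ ZMod 2} (h : ∀ x ∈ u.support, ∀ y ∈ v.support, x < y) :
    gam A u v = eps A u * eps A v ∧ gam A v u = 0 := by
  constructor
  · rw [gam_apply, eps_apply, eps_apply, Finset.sum_mul_sum]
    refine Finset.sum_congr rfl fun x hx => Finset.sum_congr rfl fun y hy => ?_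
    rw [if_pos (h x hx y hy), mul_one]
  · rw [gam_apply]
    refine Finset.sum_eq_zero fun y hy => Finset.sum_eq_zero fun x hx => ?_
    rw [if_neg (not_lt.2 (h x hx y hy).le)]; simp

theorem mk_finsupp_le {B : Type} (μ : Cardinal.{0}) (hμ : ℵ₀ ≤ μ) (h : #B ≤ μ) :
    #(B →₀ ZMod 2) ≤ μ := by
  rcases finite_or_infinite B with hB | hB
  · have : Finite (B →₀ ZMod 2) :=
      Finite.of_injective (fun f : B →₀ ZMod 2 => (f : B → ZMod 2)) DFunLike.coe_injective
    exact le_trans (lt_aleph0_of_finite _).le hμ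
  · rw [mk_finsupp_of_infinite]
    exact max_le h (le_trans (lt_aleph0_of_finite _).le hμ)

theorem press [WellFoundedLT A] (μ : Cardinal.{0}) (hμ : ℵ₀ ≤ μ)
    (hb : ∀ T : Set A, #T ≤ μ → ∃ a, ∀ t ∈ T, t < a) (hi : ∀ a : A, #(Set.Iic a) ≤ μ)
    (I : Type) (hI : #I ≤ μ) (U : I → Set (A →₀ ZMod 2))
    (hU : ∀ i, ∀ u ∈ U i, ∀ v ∈ U i, gam A u v = gam A v u) :
    ∃ δ : A, ∀ i, ∀ u ∈ U i, eps A (u.filter (fun x => ¬ x < δ)) = 0 := by
  classical
  by_contra hne
  push Not at hne
  choose i b hbU hb1 using hne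
  have one : ∀ z : ZMod 2, z ≠ 0 → z = 1 := by decide
  let τ : A → (A →₀ ZMod 2) × I := fun δ => ((b δ).filter (fun x => x < δ), i δ)
  have clash : ∀ δ δ', τ δ = τ δ' → δ ≤ δ' → (∀ x ∈ (b δ).support, x < δ') → False := by
    intro δ δ' h hle hs
    have h1 : (b δ).filter (fun x => x < δ) = (b δ').filter (fun x => x < δ') := congrArg Prod.fst h
    have h2 : i δ = i δ' := congrArg Prod.snd h
    have hc := hU (i δ) (b δ) (hbU δ) (b δ') (h2 ▸ hbU δ')
    set ρ := (b δ).filter (fun x => x < δ) with hρ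
    set t := (b δ).filter (fun x => ¬ x < δ) with ht
    set t' := (b δ').filter (fun x => ¬ x < δ') with ht'
    have e1 : b δ = ρ + t := (Finsupp.filter_pos_add_filter_neg _ _).symm
    have e2 : b δ' = ρ + t' := by rw [h1]; exact (Finsupp.filter_pos_add_filter_neg _ _).symm
    have sρ : ∀ x ∈ ρ.support, x < δ := fun x hx => by
      rw [hρ, Finsupp.support_filter, Finset.mem_filter] at hx; exact hx.2
    have st : ∀ x ∈ t.support, δ ≤ x ∧ x < δ' := fun x hx => by
      rw [ht, Finsupp.support_filter, Finset.mem_filter] at hx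
      exact ⟨not_lt.1 hx.2, hs x hx.1⟩
    have st' : ∀ x ∈ t'.support, δ' ≤ x := fun x hx => by
      rw [ht', Finsupp.support_filter, Finset.mem_filter] at hx
      exact not_lt.1 hx.2
    have a1 := gam_lt (u := ρ) (v := t) fun x hx y hy => lt_of_lt_of_le (sρ x hx) (st y hy).1
    have a2 := gam_lt (u := ρ) (v := t') fun x hx y hy =>
      lt_of_lt_of_le (sρ x hx) (hle.trans (st' y hy))
    have a3 := gam_lt (u := t) (v := t') fun x hx y hy => lt_of_lt_of_le (st x hx).2 (st' y hy)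
    have b1 : eps A t = 1 := one _ (by simpa only [ht, not_lt] using hb1 δ)
    have b2 : eps A t' = 1 := one _ (by simpa only [ht', not_lt] using hb1 δ')
    rw [e1, e2] at hc
    simp only [map_add, LinearMap.add_apply, a1.1, a1.2, a2.1, a2.2, a3.1, a3.2, b1, b2] at hc
    simp at hc
  have hB : ∀ p : (A →₀ ZMod 2) × I, ∃ a : A, ∀ δ, τ δ = p → δ < a := by
    intro p
    by_cases h : ∃ δ, τ δ = p
    · obtain ⟨δ0, h0⟩ := h
      obtain ⟨a, ha⟩ := hb (insert δ0 ((b δ0).support : Set A)) (by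
        refine le_trans (le_of_lt ?_) hμ
        exact Set.Finite.lt_aleph0 ((Finset.finite_toSet _).insert _))
      refine ⟨a, fun δ hδ => ?_⟩
      by_contra hlt
      rw [not_lt] at hlt
      exact clash δ0 δ (h0.trans hδ.symm) ((ha δ0 (Set.mem_insert _ _)).le.trans hlt)
        (fun x hx => lt_of_lt_of_le (ha x (Set.mem_insert_of_mem _ hx)) hlt)
    · obtain ⟨a, -⟩ := hb ∅ (by simp)
      exact ⟨a, fun δ hδ => absurd ⟨δ, hδ⟩ h⟩
  choose B hB using hB
  have hg : ∀ α : A, ∃ a : A, α < a ∧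
      ∀ p : (A →₀ ZMod 2) × I, (∀ x ∈ p.1.support, x ≤ α) → B p < a := by
    intro α
    let F : (Set.Iic α →₀ ZMod 2) × I → A :=
      fun q => B (q.1.embDomain (Function.Embedding.subtype _), q.2)
    have hF : #(insert α (Set.range F) : Set A) ≤ μ := by
      refine le_trans mk_insert_le (add_le_of_le hμ (le_trans mk_range_le ?_)
        (le_trans one_le_aleph0 hμ))
      rw [mk_prod, lift_id, lift_id]
      exact mul_le_of_le hμ (mk_finsupp_le μ hμ (hi α)) hI
    obtain ⟨a, ha⟩ := hb _ hF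
    refine ⟨a, ha α (Set.mem_insert _ _), fun p hp => ha _ (Set.mem_insert_of_mem _ ?_)⟩
    refine ⟨(p.1.subtypeDomain (fun x => x ∈ Set.Iic α), p.2), ?_⟩
    simp only [F]
    congr 2
    ext x
    by_cases hx : x ≤ α
    · have := Finsupp.embDomain_apply_self (Function.Embedding.subtype (fun x => x ∈ Set.Iic α))
        (p.1.subtypeDomain (fun x => x ∈ Set.Iic α)) ⟨x, hx⟩
      exact this
    · rw [Finsupp.embDomain_notin_range]
      · by_contra h
        exact hx (hp x (Finsupp.mem_support_iff.2 (Ne.symm h)))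
      · rintro ⟨y, rfl⟩; exact hx y.2
  choose g hg1 hg2 using hg
  obtain ⟨a0, -⟩ := hb ∅ (by simp)
  let α : ℕ → A := fun n => g^[n] a0
  have αs : ∀ n, α (n + 1) = g (α n) := fun n => Function.iterate_succ_apply' g n a0
  have αm : StrictMono α := strictMono_nat_of_lt_succ fun n => by rw [αs]; exact hg1 _
  have hne : {a : A | ∀ n, α n < a}.Nonempty := by
    obtain ⟨a, ha⟩ := hb (Set.range α) (le_trans mk_range_le (by rw [mk_nat]; exact hμ))
    exact ⟨a, fun n => ha _ ⟨n, rfl⟩⟩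
  let δ := (wellFounded_lt (α := A)).min _ hne
  have δ1 : ∀ n, α n < δ := (wellFounded_lt (α := A)).min_mem _ hne
  have δ2 : ∀ x, x < δ → ∃ n, x ≤ α n := by
    intro x hx
    by_contra h
    push Not at h
    exact (wellFounded_lt (α := A)).not_lt_min {a : A | ∀ n, α n < a} (show x ∈ {a : A | ∀ n, α n < a} from h) hx
  choose! N hN using δ2
  let n := (τ δ).1.support.sup N
  have hn : ∀ x ∈ (τ δ).1.support, x ≤ α n := by
    intro x hx
    have hx' := hx
    simp only [τ, Finsupp.support_filter, Finset.mem_filter] at hx'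
    exact (hN x hx'.2).trans (αm.monotone (Finset.le_sup hx))
  have h1 := hg2 (α n) (τ δ) hn
  rw [← αs] at h1
  exact lt_irrefl _ ((hB _ δ rfl).trans (h1.trans (δ1 _)))

/-- the Clifford group -/
@[ext] structure Cl (A : Type) where
  v : A →₀ ZMod 2
  c : ZMod 2

noncomputable instance : Mul (Cl A) := ⟨fun p q => ⟨p.v + q.v, p.c + q.c + gam A p.v q.v⟩⟩
noncomputable instance : One (Cl A) := ⟨⟨0, 0⟩⟩
noncomputable instance : Inv (Cl A) := ⟨fun p => ⟨-p.v, -p.c + gam A p.v p.v⟩⟩

theorem mul_v (p q : Cl A) : (p * q).v = p.v + q.v := rfl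
theorem mul_c (p q : Cl A) : (p * q).c = p.c + q.c + gam A p.v q.v := rfl
omit [LinearOrder A] in
theorem one_v : (1 : Cl A).v = 0 := rfl
omit [LinearOrder A] in
theorem one_c : (1 : Cl A).c = 0 := rfl
theorem inv_v (p : Cl A) : (p⁻¹).v = -p.v := rfl
theorem inv_c (p : Cl A) : (p⁻¹).c = -p.c + gam A p.v p.v := rfl

noncomputable instance : Group (Cl A) := Group.ofLeftAxioms
  (fun p q r => Cl.ext (by simp only [mul_v, add_assoc])
    (by simp only [mul_c, mul_v, map_add, LinearMap.add_apply]; ring))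
  (fun p => Cl.ext (by simp [mul_v, one_v]) (by simp [mul_c, one_c, one_v]))
  (fun p => Cl.ext (by simp [mul_v, inv_v, one_v]) (by rw [mul_c, inv_c, inv_v, one_c, map_neg, LinearMap.neg_apply]; ring))

theorem main (κ : Cardinal.{0}) : ∃ (G : Type) (_ : Group G),
      ∀ (V : Type) (X : SimpleGraph V),
        Nonempty (G ≃* SimpleGraph.Iso X X) →
        ∀ S : Set (Sym2 V), S ⊆ X.edgeSet →
          (∀ e ∈ X.edgeSet, ∃ s ∈ S, ∃ φ : SimpleGraph.Iso X X, Sym2.map (⇑φ) s = e) →
          κ < Cardinal.mk S := by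
  classical
  set μ := max κ ℵ₀ with hμd
  have hμ : ℵ₀ ≤ μ := le_max_right _ _
  let A := (Order.succ μ).ord.ToType
  have hA : #A = Order.succ μ := by simp [A]
  have hio : ∀ a : A, #(Set.Iio a) ≤ μ := fun a =>
    Order.lt_succ_iff.1 (mk_Iio_ord_toType a)
  have hi : ∀ a : A, #(Set.Iic a) ≤ μ := fun a => by
    rw [← Set.Iio_insert]
    exact le_trans mk_insert_le (add_le_of_le hμ (hio a) (le_trans one_le_aleph0 hμ))
  have hb : ∀ T : Set A, #T ≤ μ → ∃ a, ∀ t ∈ T, t < a := by
    intro T hT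
    by_contra h
    push Not at h
    have h1 : (Set.univ : Set A) ⊆ ⋃ t : T, Set.Iic t.1 := fun a _ => by
      obtain ⟨t, ht, h2⟩ := h a
      exact Set.mem_iUnion.2 ⟨⟨t, ht⟩, h2⟩
    have h2 := (mk_le_mk_of_subset h1).trans (mk_iUnion_le _)
    rw [mk_univ, hA] at h2
    have h3 : #T * ⨆ t : T, #(Set.Iic t.1) ≤ μ := mul_le_of_le hμ hT (ciSup_le' fun t => hi _)
    exact absurd (h2.trans h3) (not_le.2 (Order.lt_succ μ))
  refine ⟨Cl A, inferInstance, fun V X ⟨e⟩ S _ hS => lt_of_le_of_lt (le_max_left κ ℵ₀) ?_⟩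
  refine graph_part (G := Cl A) ⟨0, 1⟩ ?_ ?_ ?_ ?_ μ hμ ?_ X e S hS
  · intro h
    have : (1 : ZMod 2) = 0 := congrArg Cl.c h
    exact absurd this (by decide)
  · refine Cl.ext (by simp [mul_v, one_v]) ?_
    simp only [mul_c, one_c, map_zero, add_zero]; decide
  · intro g
    exact Cl.ext (by simp [mul_v]) (by simp [mul_c, add_comm])
  · intro g x
    have hv : (x⁻¹ * g * x).v = g.v := by simp [mul_v, inv_v]
    have : ∀ s t : ZMod 2, s = t ∨ s = t + 1 := by decide
    rcases this (x⁻¹ * g * x).c g.c with h | h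
    · exact Or.inl (Cl.ext hv h)
    · exact Or.inr (Cl.ext (by rw [hv]; simp [mul_v]) (by rw [h]; simp [mul_c]))
  · intro I U hI hU htop
    obtain ⟨δ, hδ⟩ := press μ hμ hb hi I hI (fun i => Cl.v '' U i) (by
      rintro i _ ⟨p, hp, rfl⟩ _ ⟨q, hq, rfl⟩
      have := congrArg Cl.c (hU i p hp q hq)
      rw [mul_c, mul_c, add_comm q.c] at this
      exact add_left_cancel this)
    have all : ∀ p : Cl A, eps A (p.v.filter (fun x => ¬ x < δ)) = 0 := by
      intro p
      have hp : p ∈ Subgroup.closure (⋃ i, U i) := by rw [htop]; trivial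
      induction hp using Subgroup.closure_induction with
      | mem p hp =>
        obtain ⟨i, hi⟩ := Set.mem_iUnion.1 hp
        exact hδ i _ ⟨p, hi, rfl⟩
      | one => rw [one_v, Finsupp.filter_zero, map_zero]
      | mul p q _ _ hp hq => rw [mul_v, Finsupp.filter_add, map_add, hp, hq, add_zero]
      | inv p _ hp => rw [inv_v, Finsupp.filter_neg, map_neg, hp, neg_zero]
    have := all ⟨Finsupp.single δ 1, 0⟩
    rw [Finsupp.filter_single_of_pos (fun x => ¬ x < δ) (lt_irrefl δ)] at this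
    simp [eps] at this

end Pool.Agent.H.MP_0f290c_co
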